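import Mathlib
import Pool.Agent.H84.SeifDefs
import Pool.Agent.H84.Seif

set_option autoImplicit false

namespace Pool.Agent.Results.MP_06cdda_gt.Seifert

open Pool.Agent.H84.SeifDefs

theorem result : ∀ n : ℕ, 5 ≤ n → n % 4 = 1 →
    ∃ (k : ℕ) (V : Matrix (Fin k) (Fin k) ℤ),
      (V - V.transpose).det = 1 ∧ |(V + V.transpose).det| = (n : ℤ) ∧ sgn (V + V.transpose) = 4 :=
  fun _ h5 h4 => Pool.Agent.H84.Seif.main h5 h4

end Pool.Agent.Results.MP_06cdda_gt.Seifert
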